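import Pool.Agent.W881.LRX.Fin

/-!
# Finite index overgroups of (free) x (free abelian of finite rank) have (LR)

Q1 of MP_836f52_al asks whether property (LR) passes from a subgroup `K` of finite index to the
group `G`. This file answers it positively for every `K` that is the product of a free group (of
any rank, possibly infinite) and a free abelian group of finite rank; `G` is arbitrary.

Idea. Let `A` be the intersection of the free abelian factor with a normal subgroup of finite index
contained in `K`; it is normal in `G` (it is a centre), `G / A` is virtually free, so `G / A` has
(LR) (the team's theorem on virtually free groups). Averaging a retraction onto `A` over the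
conjugates gives a normal subgroup `N0` of `G` with `N0 ∩ A = 1` and `A N0` of finite index, and
averaging over the conjugates by `H` gives a subgroup `B` of `A`, normalised by `H`, with
`B ∩ H = 1` and `B (H ∩ A)` of finite index in `A`. If `N'` is a virtual complement of `H A / A` in
`G / A` normalised by it, with preimage `N''`, then `B (N0 ∩ N'')` is a virtual complement of `H`
normalised by `H`.
-/

set_option autoImplicit false

namespace Pool.Agent.Results.MP_836f52_al.FreeTimesLattice

/-- Let `K` be a subgroup of finite index in a group `G` that is isomorphic to the product of a free
group and a free abelian group of finite rank. Then every finitely generated subgroup of `G` is a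
virtual retract of `G`. -/
theorem result :
    ∀ (G : Type) [Group G] (K : Subgroup G), K.FiniteIndex →
      ∀ (X : Type) (m : ℕ), Nonempty (K ≃* FreeGroup X × Multiplicative (Fin m → ℤ)) →
        ∀ H : Subgroup G, H.FG →
          ∃ L : Subgroup G, L.FiniteIndex ∧ H ≤ L ∧
            ∃ ρ : L →* G, (∀ x : L, ρ x ∈ H) ∧ ∀ x : L, (x : G) ∈ H → ρ x = (x : G) := by
  intro G _ K hK X m hθ H hH
  obtain ⟨θ⟩ := hθ
  obtain ⟨L, hL, hHL, ρ, h1, h2⟩ := Pool.Agent.W881.LRX.final G K hK X m θ H hH
  exact ⟨L, hL, hHL, ρ, h1, fun x hx => h2 (x : G) x.2 hx⟩

end Pool.Agent.Results.MP_836f52_al.FreeTimesLattice
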